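import Pool.Agent.H86.RG.Targets2

/-! Partial regularity of stationary harmonic maps (MP_2697e3_an), part E: row E6LM. -/

set_option autoImplicit false

namespace Pool.Agent.H43.RG6

open MeasureTheory Metric Set Filter Topology Pool.Agent.H87.SN Pool.Agent.H86.RG
open scoped ContDiff RealInnerProductSpace ENNReal

/-- the basic estimate -/
theorem key_LM (hDIL : T_DIL) {n : ℕ} {φ ζ : E n → ℝ} (hK : IsKer φ ζ) {M : ℝ}
    (hM : ∀ x, ‖φ x‖ ≤ M) {t : ℝ} (ht : 0 < t) {v : E n → ℝ} {x : E n} (c : ℝ)
    (hv : IntegrableOn v (closedBall x t)) :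
    |cv (dil φ t) v x - c| ≤ M * (t ^ n)⁻¹ * ∫ y in closedBall x t, |v y - c| := by
  obtain ⟨hk1, hk2, -, hk3, -⟩ := hDIL n φ t ht hK.sφ hK.zφ
  rw [hK.one] at hk3
  obtain ⟨h, hh⟩ : ∃ h : E n → ℝ, h = fun y => dil φ t (x - y) := ⟨_, rfl⟩
  have hc : Continuous h := by
    rw [hh]
    exact hk1.continuous.comp (continuous_const.sub continuous_id)
  have hM0 : 0 ≤ M := (norm_nonneg _).trans (hM 0)
  have hz : ∀ y, y ∉ closedBall x t → h y = 0 := by
    intro y hy
    rw [hh]
    refine hk2 _ ?_
    rw [mem_closedBall, dist_comm, dist_eq_norm, not_le] at hy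
    exact hy.le
  have hb : ∀ y, ‖h y‖ ≤ M * (t ^ n)⁻¹ := by
    intro y
    rw [hh]
    change ‖(t ^ n)⁻¹ * φ (t⁻¹ • (x - y))‖ ≤ _
    rw [norm_mul, mul_comm, Real.norm_of_nonneg (by positivity : (0 : ℝ) ≤ (t ^ n)⁻¹)]
    exact mul_le_mul_of_nonneg_right (hM _) (by positivity)
  have hcs : HasCompactSupport h := HasCompactSupport.intro (isCompact_closedBall x t) hz
  have hi : Integrable h := hc.integrable_of_hasCompactSupport hcs
  have h1 : ∫ y, h y = 1 := by
    rw [hh, integral_sub_left_eq_self (dil φ t) volume x]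
    exact hk3
  have hiv : Integrable fun y => h y * v y := by
    have h2 : (fun y => h y * v y) = fun y => h y * (closedBall x t).indicator v y := by
      funext y
      by_cases hy : y ∈ closedBall x t
      · rw [indicator_of_mem hy]
      · rw [indicator_of_notMem hy, hz y hy, zero_mul, zero_mul]
    rw [h2]
    exact Integrable.bdd_mul (c := M * (t ^ n)⁻¹) (hv.integrable_indicator measurableSet_closedBall)
      hc.aestronglyMeasurable (Eventually.of_forall hb)
  have h3 : cv (dil φ t) v x - c = ∫ y, h y * (v y - c) := by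
    have h4 : (fun y => h y * (v y - c)) = fun y => h y * v y - h y * c := by
      funext y
      ring
    rw [h4, integral_sub hiv (hi.mul_const c), integral_mul_const, h1, one_mul, hh]
    rfl
  rw [h3, ← Real.norm_eq_abs]
  have h5 : Integrable ((closedBall x t).indicator fun y => M * (t ^ n)⁻¹ * |v y - c|) := by
    refine IntegrableOn.integrable_indicator ?_ measurableSet_closedBall
    refine Integrable.const_mul ?_ _
    have h6 : IntegrableOn (fun y => v y - c) (closedBall x t) :=
      hv.sub (integrableOn_const (by exact measure_closedBall_lt_top.ne))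
    exact h6.abs
  refine (norm_integral_le_of_norm_le h5 (Eventually.of_forall fun y => ?_)).trans (le_of_eq ?_)
  · by_cases hy : y ∈ closedBall x t
    · rw [indicator_of_mem hy, norm_mul, Real.norm_eq_abs (v y - c)]
      exact mul_le_mul_of_nonneg_right (hb y) (abs_nonneg _)
    · rw [indicator_of_notMem hy, hz y hy, zero_mul, norm_zero]
  · rw [integral_indicator measurableSet_closedBall, integral_const_mul]

theorem pf_LM (hDIL : T_DIL) : T_LM := by
  intro n φ ζ hK v U hU hv
  obtain ⟨M, hM⟩ : ∃ M : ℝ, ∀ x, ‖φ x‖ ≤ M := by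
    have hcs : HasCompactSupport φ := by
      refine HasCompactSupport.intro (isCompact_closedBall 0 1) fun x hx => hK.zφ x ?_
      rw [mem_closedBall, dist_zero_right, not_le] at hx
      exact hx.le
    exact hK.sφ.continuous.bounded_above_of_compact_support hcs
  have hM0 : 0 ≤ M := (norm_nonneg _).trans (hM 0)
  obtain ⟨B, hB⟩ : ∃ B : ℝ, B = (volume (ball (0 : E n) 1)).toReal := ⟨_, rfl⟩
  have hB0 : 0 < B := by
    rw [hB]
    exact ENNReal.toReal_pos (measure_ball_pos _ _ one_pos).ne' measure_ball_lt_top.ne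
  have hvol : ∀ (x : E n) (t : ℝ), 0 < t → (volume (closedBall x t)).toReal = t ^ n * B := by
    intro x t ht
    rw [Measure.addHaar_closedBall volume x ht.le, ENNReal.toReal_mul, hB,
      ENNReal.toReal_ofReal (by positivity), finrank_euclideanSpace_fin]
  have hsub : ∀ x ∈ U, ∃ δ : ℝ, 0 < δ ∧ ∀ t : ℝ, t ≤ δ → closedBall x t ⊆ U := by
    intro x hx
    obtain ⟨δ, hδ, h1⟩ := Metric.nhds_basis_closedBall.mem_iff.1 (hU.mem_nhds hx)
    exact ⟨δ, hδ, fun t ht => (closedBall_subset_closedBall ht).trans h1⟩
  constructor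
  · have hf : Integrable (U.indicator v) := hv.integrable_indicator hU.measurableSet
    have hae := IsUnifLocDoublingMeasure.ae_tendsto_average_norm_sub volume
      hf.locallyIntegrable 1
    filter_upwards [ae_restrict_of_ae hae, ae_restrict_mem hU.measurableSet] with x hx hxU
    obtain ⟨δ, hδ, hδU⟩ := hsub x hxU
    have hlim := hx (l := 𝓝[>] (0 : ℝ)) (fun _ => x) id tendsto_id (by
      filter_upwards [self_mem_nhdsWithin] with t ht
      rw [one_mul]
      exact mem_closedBall_self (le_of_lt ht))
    rw [tendsto_iff_norm_sub_tendsto_zero]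
    have hlim2 := hlim.const_mul (M * B)
    rw [mul_zero] at hlim2
    refine squeeze_zero' (Eventually.of_forall fun t => norm_nonneg _) ?_ hlim2
    filter_upwards [self_mem_nhdsWithin, nhdsWithin_le_nhds (Iic_mem_nhds hδ)] with t ht0 htδ
    have ht : 0 < t := ht0
    have hcb := hδU t htδ
    have h1 := key_LM hDIL hK hM ht (v x) (hv.mono_set hcb)
    rw [Real.norm_eq_abs]
    refine h1.trans (le_of_eq ?_)
    rw [setAverage_eq, measureReal_def]
    simp only [id]
    rw [hvol x t ht, smul_eq_mul]
    have h2 : ∫ y in closedBall x t, ‖U.indicator v y - U.indicator v x‖ =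
        ∫ y in closedBall x t, |v y - v x| := by
      refine setIntegral_congr_fun measurableSet_closedBall fun y hy => ?_
      simp only [indicator_of_mem hxU, indicator_of_mem (hcb hy), Real.norm_eq_abs]
    rw [h2]
    have ht' : t ^ n ≠ 0 := by positivity
    field_simp
  · intro hcont x hxU
    obtain ⟨δ, hδ, hδU⟩ := hsub x hxU
    rw [Metric.tendsto_nhds]
    intro ε hε
    obtain ⟨ε', hε'⟩ : ∃ ε' : ℝ, ε' = ε / (M * B + 1) := ⟨_, rfl⟩
    have hMB : 0 ≤ M * B := by positivity
    have hε'0 : 0 < ε' := by rw [hε']; positivity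
    have h1 : ∀ᶠ y in 𝓝 x, dist (v y) (v x) < ε' :=
      Metric.tendsto_nhds.1 ((hcont x hxU).continuousAt (hU.mem_nhds hxU)) ε' hε'0
    obtain ⟨δ', hδ', h2⟩ := Metric.nhds_basis_closedBall.mem_iff.1 h1
    filter_upwards [self_mem_nhdsWithin, nhdsWithin_le_nhds (Iic_mem_nhds hδ),
      nhdsWithin_le_nhds (Iic_mem_nhds hδ')] with t ht0 htδ htδ'
    have ht : 0 < t := ht0
    have hcb := hδU t htδ
    have h3 := key_LM hDIL hK hM ht (v x) (hv.mono_set hcb)
    rw [Real.dist_eq]
    refine lt_of_le_of_lt h3 ?_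
    have h4 : ∫ y in closedBall x t, |v y - v x| ≤ ε' * (t ^ n * B) := by
      have h5 : ∫ y in closedBall x t, |v y - v x| ≤ ∫ y in closedBall x t, ε' := by
        refine setIntegral_mono_on ?_ (integrableOn_const (by exact measure_closedBall_lt_top.ne))
          measurableSet_closedBall fun y hy => ?_
        · have h6 : IntegrableOn (fun y => v y - v x) (closedBall x t) :=
            (hv.mono_set hcb).sub (integrableOn_const (by exact measure_closedBall_lt_top.ne))
          exact h6.abs
        · have h7 : dist (v y) (v x) < ε' := h2 (closedBall_subset_closedBall htδ' hy)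
          rw [Real.dist_eq] at h7
          exact h7.le
      rw [setIntegral_const, measureReal_def, hvol x t ht, smul_eq_mul, mul_comm] at h5
      exact h5
    have ht' : t ^ n ≠ 0 := by positivity
    calc M * (t ^ n)⁻¹ * ∫ y in closedBall x t, |v y - v x|
        ≤ M * (t ^ n)⁻¹ * (ε' * (t ^ n * B)) := mul_le_mul_of_nonneg_left h4 (by positivity)
      _ = M * B * ε' := by field_simp
      _ < (M * B + 1) * ε' := by nlinarith
      _ = ε := by rw [hε']; field_simp

end Pool.Agent.H43.RG6
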