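import Pool.Agent.H86.RG.Targets2
import Pool.Agent.H13.RG6.REP

/-! Partial regularity of stationary harmonic maps (MP_2697e3_an), part E: row E6RPG. -/

set_option autoImplicit false

namespace Pool.Agent.H43.RG6

open MeasureTheory Metric Set Filter Topology Pool.Agent.H87.SN Pool.Agent.H86.RG
open Pool.Agent.H13.RG6 (dd_refl dd_cmul int_ker)
open scoped ContDiff RealInnerProductSpace ENNReal

theorem pf_RPG (hDIL : T_DIL) : T_RPG := by
  intro n φ ζ hK v D x₀ R hv hD hW x hx t ht htR
  obtain ⟨d1, d2, d3, -, d5⟩ := hDIL n ζ t ht hK.sζ hK.zζ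
  obtain ⟨a1, a2, -, -, -⟩ := hDIL n φ t ht hK.sφ hK.zφ
  obtain ⟨b1, b2, -, -, -⟩ := hDIL n φ (t / 2) (by positivity) hK.sφ hK.zφ
  have hsub : closedBall x t ⊆ ball x₀ (2 * R) := by
    intro y hy
    rw [mem_closedBall] at hy
    rw [mem_ball] at hx ⊢
    have := dist_triangle y x x₀
    linarith
  have hsm : ContDiff ℝ ∞ (fun y : E n => x - y) := contDiff_const.sub contDiff_id
  have hDi : ∀ i : Fin n, IntegrableOn (fun y => D y i) (ball x₀ (2 * R)) := fun i =>
    (EuclideanSpace.proj (𝕜 := ℝ) i : E n →L[ℝ] ℝ).integrable_comp hD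
  -- one coordinate
  have key : ∀ i : Fin n, ∫ y, dil (dd i (dd i ζ)) t (x - y) * v y =
      t * cv (dil (dd i ζ) t) (fun y => D y i) x := by
    intro i
    obtain ⟨c1, c2, -⟩ := d5 i
    obtain ⟨f1, f2, f3, -, -⟩ := hDIL n (dd i ζ) t ht c1 c2
    have htst : Tst (ball x₀ (2 * R)) (fun y => t * dil (dd i ζ) t (x - y)) := by
      have h1 : Function.support (fun y => t * dil (dd i ζ) t (x - y)) ⊆ closedBall x t := by
        intro y hy
        by_contra h
        apply hy
        rw [mem_closedBall, dist_comm, dist_eq_norm, not_le] at h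
        simp only [f2 _ h.le, mul_zero]
      refine ⟨contDiff_const.mul (f1.comp hsm),
        HasCompactSupport.of_support_subset_isCompact (isCompact_closedBall x t) h1, ?_⟩
      exact (closure_minimal h1 isClosed_closedBall).trans hsub
    have e1 : ∀ y, dd i (fun y => t * dil (dd i ζ) t (x - y)) y =
        -dil (dd i (dd i ζ)) t (x - y) := by
      intro y
      rw [dd_cmul i _ (fun y => dil (dd i ζ) t (x - y)) ((f1.comp hsm).differentiable (by simp)) y,
        dd_refl i (dil (dd i ζ) t) (f1.differentiable (by simp)) x y, f3 i]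
      field_simp
    have h := hW _ htst i
    have h2 : ∫ y, v y * dd i (fun y => t * dil (dd i ζ) t (x - y)) y =
        -∫ y, dil (dd i (dd i ζ)) t (x - y) * v y := by
      rw [← integral_neg]
      refine integral_congr_ae (Eventually.of_forall fun y => ?_)
      simp only [e1 y]
      ring
    have h3 : ∫ y, D y i * (t * dil (dd i ζ) t (x - y)) =
        t * cv (dil (dd i ζ) t) (fun y => D y i) x := by
      unfold cv
      rw [← integral_const_mul]
      refine integral_congr_ae (Eventually.of_forall fun y => ?_)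
      simp only []
      ring
    rw [h2, h3] at h
    linarith
  -- integrability
  have i0 : ∀ i : Fin n, Integrable (fun y => dil (dd i (dd i ζ)) t (x - y) * v y) := by
    intro i
    obtain ⟨c1, c2, -⟩ := d5 i
    obtain ⟨-, -, -, -, f5⟩ := hDIL n (dd i ζ) t ht c1 c2
    obtain ⟨g1, g2, -⟩ := f5 i
    obtain ⟨h1, h2, -⟩ := hDIL n (dd i (dd i ζ)) t ht g1 g2
    exact int_ker h1.continuous h2 hsub hv
  have i1 : Integrable (fun y => dil φ (t / 2) (x - y) * v y) :=
    int_ker (r := t) b1.continuous (fun z hz => b2 z (by linarith)) hsub hv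
  have i2 : Integrable (fun y => dil φ t (x - y) * v y) := int_ker a1.continuous a2 hsub hv
  have hsum : ∀ y, (∑ i : Fin n, dil (dd i (dd i ζ)) t (x - y) * v y) =
      dil φ (t / 2) (x - y) * v y - dil φ t (x - y) * v y := by
    intro y
    have e4 := hK.tel (t⁻¹ • (x - y))
    have e5 : dil φ (t / 2) (x - y) = (t ^ n)⁻¹ * (2 ^ n * φ ((2 : ℝ) • t⁻¹ • (x - y))) := by
      unfold dil
      rw [smul_smul, div_pow, inv_div, inv_div]
      have e6 : (2 : ℝ) * t⁻¹ = 2 / t := by rw [div_eq_mul_inv]
      rw [e6]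
      ring
    have e7 : dil φ t (x - y) = (t ^ n)⁻¹ * φ (t⁻¹ • (x - y)) := rfl
    rw [← sub_mul, e5, e7, ← mul_sub, e4, ← Finset.sum_mul]
    unfold lap dil
    rw [Finset.mul_sum]
  have h4 : ∑ i : Fin n, ∫ y, dil (dd i (dd i ζ)) t (x - y) * v y =
      (∫ y, dil φ (t / 2) (x - y) * v y) - ∫ y, dil φ t (x - y) * v y := by
    rw [← integral_sub i1 i2, ← integral_finsetSum _ fun i _ => i0 i]
    exact integral_congr_ae (Eventually.of_forall hsum)
  rw [Finset.sum_congr rfl fun i _ => key i, ← Finset.mul_sum] at h4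
  have h5 : cv (dil φ (t / 2)) v x = ∫ y, dil φ (t / 2) (x - y) * v y := rfl
  have h6 : cv (dil φ t) v x = ∫ y, dil φ t (x - y) * v y := rfl
  rw [h5, h6, h4]
  ring

end Pool.Agent.H43.RG6
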