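import Pool.Agent.H86.RG.Targets2

/-! Partial regularity of stationary harmonic maps (MP_2697e3_an), part E: row E6SM1. -/

set_option autoImplicit false

namespace Pool.Agent.H43.RG6

open MeasureTheory Metric Set Filter Topology Pool.Agent.H87.SN Pool.Agent.H86.RG
open scoped ContDiff RealInnerProductSpace ENNReal

theorem contDiff_dd {n : ℕ} {f : E n → ℝ} (hf : ContDiff ℝ ∞ f) (i : Fin n) :
    ContDiff ℝ ∞ (dd i f) := by
  have h : ContDiff ℝ ∞ (fderiv ℝ f) := hf.fderiv_right (m := ∞) (by simp)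
  exact h.clm_apply contDiff_const

theorem summable_pow {R s : ℝ} (hR : 0 < R) (hs : 0 < s) :
    Summable fun k : ℕ => (R / 2 ^ k) ^ s := by
  have h1 : (fun k : ℕ => (R / 2 ^ k) ^ s) = fun k : ℕ => R ^ s * ((1 / 2 : ℝ) ^ s) ^ k := by
    funext k
    have h2 : R / 2 ^ k = R * (1 / 2 : ℝ) ^ k := by
      rw [one_div, inv_pow, div_eq_mul_inv]
    have h3 : ((1 / 2 : ℝ) ^ k) ^ s = ((1 / 2 : ℝ) ^ s) ^ k := by
      rw [← Real.rpow_mul_natCast (by norm_num), ← Real.rpow_natCast_mul (by norm_num), mul_comm]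
    rw [h2, Real.mul_rpow hR.le (by positivity), h3]
  rw [h1]
  refine Summable.mul_left _ (summable_geometric_of_lt_one (by positivity) ?_)
  exact Real.rpow_lt_one (by norm_num) (by norm_num) hs

theorem pf_SM1 (hINT : T_INT) (hSER : Pool.Agent.H70.RG.T_SER)
    (hHLO : Pool.Agent.H70.RG.T_HLO) : T_SM1 := by
  intro n σ A R x₀ w hσ hσ1 hR hA hw h0 h1 h2
  obtain ⟨θ, hθ⟩ : ∃ θ : ℝ, θ = σ / 2 := ⟨_, rfl⟩
  have hθ0 : 0 < θ := by rw [hθ]; positivity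
  have hθ1 : θ ≤ 1 := by rw [hθ]; linarith
  obtain ⟨K, hK⟩ : ∃ K : ℝ, K = (2 + n) * A + A * R ^ θ := ⟨_, rfl⟩
  have hRθ : 0 ≤ R ^ θ := by positivity
  have hn : (0 : ℝ) ≤ n := Nat.cast_nonneg n
  have hK1 : (2 + n) * A ≤ K := by rw [hK]; nlinarith [mul_nonneg hA hRθ]
  have hK2 : A * R ^ θ ≤ K := by
    rw [hK]
    have : 0 ≤ (2 + (n : ℝ)) * A := by positivity
    linarith
  have hK0 : 0 ≤ K := le_trans (by positivity) hK1
  have ht : ∀ k : ℕ, 0 < R / 2 ^ k := fun k => by positivity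
  have htR : ∀ k : ℕ, R / 2 ^ k ≤ R := fun k => div_le_self hR.le (one_le_pow₀ (by norm_num))
  have hpow : ∀ k : ℕ, A * (R / 2 ^ k) ^ σ ≤ K * (R / 2 ^ k) ^ θ := by
    intro k
    have h3 : (R / 2 ^ k) ^ σ = (R / 2 ^ k) ^ θ * (R / 2 ^ k) ^ θ := by
      rw [← Real.rpow_add (ht k)]
      congr 1
      rw [hθ]
      ring
    have h4 : (R / 2 ^ k) ^ θ ≤ R ^ θ := Real.rpow_le_rpow (ht k).le (htR k) hθ0.le
    have h5 : 0 ≤ (R / 2 ^ k) ^ θ := (Real.rpow_pos_of_pos (ht k) _).le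
    calc A * (R / 2 ^ k) ^ σ = A * (R / 2 ^ k) ^ θ * (R / 2 ^ k) ^ θ := by rw [h3]; ring
      _ ≤ A * R ^ θ * (R / 2 ^ k) ^ θ :=
        mul_le_mul_of_nonneg_right (mul_le_mul_of_nonneg_left h4 hA) h5
      _ ≤ K * (R / 2 ^ k) ^ θ := mul_le_mul_of_nonneg_right hK2 h5
  have hsum : Summable fun k : ℕ => K * (R / 2 ^ k) ^ θ := (summable_pow hR hθ0).mul_left K
  have hHB : ∀ k, Pool.Agent.H70.RG.HB θ (K * (R / 2 ^ k) ^ θ) 1 (w k) (ball x₀ R) := by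
    intro k
    refine ⟨fun x hx => ⟨(h0 k x hx).trans (hpow k), ((hw k).differentiable (by simp)) x⟩,
      fun i => ⟨fun x hx => (h1 k x hx i).trans (hpow k), fun y hy z hz => ?_⟩⟩
    have h3 := hINT n σ θ A (R / 2 ^ k) R x₀ (dd i (w k)) hθ0 hθ1 (ht k) hA
      (contDiff_dd (hw k) i) (fun x hx => h1 k x hx i) (fun x hx j => h2 k x hx i j) y hy z hz
    have h4 : σ - θ = θ := by rw [hθ]; ring
    rw [h4] at h3
    refine h3.trans ?_
    have h5 : 0 ≤ (R / 2 ^ k) ^ θ := (Real.rpow_pos_of_pos (ht k) _).le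
    exact mul_le_mul_of_nonneg_right (mul_le_mul_of_nonneg_right hK1 h5) (by positivity)
  obtain ⟨hs, hb⟩ := hSER n ℝ θ (fun k => K * (R / 2 ^ k) ^ θ) x₀ R hθ0 hθ1 hsum 1 w hHB
  exact ⟨hs, (hHLO n ℝ 1).2.2.2 _ x₀ R θ _ hθ0 hθ1 hb⟩

end Pool.Agent.H43.RG6
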